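import Pool.Agent.helper75.LC.Spec

/-!
# Project lc, row SOL
-/

set_option autoImplicit false

namespace Pool.Agent.LC

open MX MG

open scoped MatrixGroups

theorem SOL_char {N : Type*} [Group N] (p : ℕ) :
    (((powMonoidHom p : Abelianization N →* Abelianization N).range).comap
      (Abelianization.of (G := N))).Characteristic := by
  rw [Subgroup.characteristic_iff_comap_le]
  intro φ x hx
  rw [Subgroup.mem_comap, Subgroup.mem_comap] at hx
  obtain ⟨y, hy⟩ := hx
  rw [Subgroup.mem_comap]
  refine ⟨Abelianization.map φ.symm.toMonoidHom y, ?_⟩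
  have h1 : Abelianization.map φ.symm.toMonoidHom (Abelianization.of (φ x)) = Abelianization.of x := by
    simp
  rw [← h1]
  have h2 : (Abelianization.of (φ x)) = (y : Abelianization N) ^ p := by
    have := hy
    simp only [powMonoidHom_apply] at this
    rw [this]
    rfl
  rw [h2, map_pow]
  rfl

theorem SOL_pa {G : Type} [Group G] [Finite G] (hG : Group.IsSolvable G) (M : Subgroup G)
    (hM : IsCoatom M) : ∃ p : ℕ, p ∈ (Nat.card G).primeFactors ∧ PA p M := by
  classical
  have hne : ({N : Subgroup G | N.Normal ∧ ¬ N ≤ M} : Set (Subgroup G)).Nonempty := by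
    refine ⟨⊤, inferInstance, ?_⟩
    intro h
    exact hM.1 (top_le_iff.mp h)
  obtain ⟨N, hNmin⟩ := (Set.toFinite _).exists_minimal hne
  have hNn : N.Normal := hNmin.prop.1
  have hNM : ¬ N ≤ M := hNmin.prop.2
  have hmin : ∀ L : Subgroup G, L.Normal → L ≤ N → L ≠ N → L ≤ M := by
    intro L hL hLN hne'
    by_contra hcon
    exact hne' (le_antisymm hLN (hNmin.le_of_le ⟨hL, hcon⟩ hLN))
  have hNnt : Nontrivial N := by
    rw [Subgroup.nontrivial_iff_ne_bot]
    rintro rfl
    exact hNM bot_le
  have hcl : commutator N < ⊤ := Group.IsSolvable.commutator_lt_top_of_nontrivial N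
  have hAnt : Nontrivial (Abelianization N) := by
    by_contra hcon
    rw [not_nontrivial_iff_subsingleton] at hcon
    have : commutator N = ⊤ := by
      rw [eq_top_iff]
      intro x _
      have : Abelianization.of x = 1 := Subsingleton.elim _ _
      rw [← Abelianization.ker_of]
      exact this
    exact hcl.ne this
  have hfin : Finite (Abelianization N) := Quotient.finite _
  have hcard : Nat.card (Abelianization N) ≠ 1 := by
    have := Finite.one_lt_card (α := Abelianization N)
    omega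
  obtain ⟨p, hp, hpd⟩ := Nat.exists_prime_and_dvd hcard
  have : Fact p.Prime := ⟨hp⟩
  have hdvd : Nat.card (Abelianization N) ∣ Nat.card G :=
    (Subgroup.card_quotient_dvd_card (commutator N)).trans (Subgroup.card_subgroup_dvd_card N)
  refine ⟨p, ?_, N, hNn, hNM, ?_⟩
  · rw [Nat.mem_primeFactors]
    exact ⟨hp, hpd.trans hdvd, Nat.card_pos.ne'⟩
  · have := SOL_char (N := N) p
    set K : Subgroup N := (((powMonoidHom p : Abelianization N →* Abelianization N).range).comap
      (Abelianization.of (G := N))) with hK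
    have hKn : (K.map N.subtype).Normal := inferInstance
    have hKle : K.map N.subtype ≤ N := Subgroup.map_subtype_le K
    have hKne : K.map N.subtype ≠ N := by
      intro h
      have hKt : K = ⊤ := by
        rw [eq_top_iff]
        intro x _
        have hx : (x : G) ∈ K.map N.subtype := by rw [h]; exact x.2
        obtain ⟨y, hy, hyx⟩ := hx
        have : y = x := Subtype.ext hyx
        rw [← this]; exact hy
      have hsurj : Function.Surjective (fun y : Abelianization N => y ^ p) := by
        intro a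
        obtain ⟨x, rfl⟩ := QuotientGroup.mk_surjective a
        have hx : x ∈ K := by rw [hKt]; trivial
        obtain ⟨y, hy⟩ := hx
        exact ⟨y, hy⟩
      have hinj : Function.Injective (fun y : Abelianization N => y ^ p) :=
        Finite.injective_iff_surjective.mpr hsurj
      obtain ⟨x, hx⟩ := exists_prime_orderOf_dvd_card' p hpd
      have h1 : x ^ p = 1 := by rw [← hx]; exact pow_orderOf_eq_one x
      have h2 : x = 1 := hinj (by simp only [h1, one_pow])
      rw [h2, orderOf_one] at hx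
      exact hp.one_lt.ne hx
    have hKM := hmin _ hKn hKle hKne
    constructor
    · intro a ha b hb
      apply hKM
      refine ⟨(⟨a, ha⟩ : N) * ⟨b, hb⟩ * (⟨a, ha⟩ : N)⁻¹ * (⟨b, hb⟩ : N)⁻¹, ?_, rfl⟩
      rw [SetLike.mem_coe, hK, Subgroup.mem_comap]
      refine ⟨1, ?_⟩
      simp only [map_mul, map_inv, map_one]
      rw [mul_comm (Abelianization.of (⟨a, ha⟩ : N)) (Abelianization.of (⟨b, hb⟩ : N))]
      simp
    · intro a ha
      refine ⟨1, ?_⟩
      rw [pow_one]
      apply hKM
      refine ⟨(⟨a, ha⟩ : N) ^ p, ?_, rfl⟩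
      rw [SetLike.mem_coe, hK, Subgroup.mem_comap]
      refine ⟨Abelianization.of (⟨a, ha⟩ : N), ?_⟩
      rw [powMonoidHom_apply, map_pow]

theorem SOL_le {α ι : Type*} [Finite α] [DecidableEq ι] (s : Finset ι) (f : ι → Set α) :
    (⋃ i ∈ s, f i).ncard ≤ ∑ i ∈ s, (f i).ncard := by
  induction s using Finset.induction_on with
  | empty => simp
  | insert a s ha ih =>
    rw [Finset.set_biUnion_insert, Finset.sum_insert ha]
    exact (Set.ncard_union_le _ _).trans (by omega)

theorem SOL_eq {α ι : Type*} [Finite α] [DecidableEq ι] (s : Finset ι) (f : ι → Set α)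
    (hf : ∀ i ∈ s, ∀ j ∈ s, i ≠ j → Disjoint (f i) (f j)) :
    (⋃ i ∈ s, f i).ncard = ∑ i ∈ s, (f i).ncard := by
  induction s using Finset.induction_on with
  | empty => simp
  | insert a s ha ih =>
    rw [Finset.set_biUnion_insert, Finset.sum_insert ha,
      Set.ncard_union_eq _ (Set.toFinite _) (Set.toFinite _),
      ih (fun i hi j hj => hf i (Finset.mem_insert_of_mem hi) j (Finset.mem_insert_of_mem hj))]
    rw [Set.disjoint_iUnion₂_right]
    intro i hi
    refine hf a (Finset.mem_insert_self _ _) i (Finset.mem_insert_of_mem hi) ?_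
    rintro rfl
    exact ha hi

theorem SOL_dis {G : Type} [Group G] [Finite G] (p q : ℕ) (hp : p.Prime) (hq : q.Prime) (hpq : p ≠ q) :
    Disjoint (pcl p G) (pcl q G) := by
  rw [Set.disjoint_left]
  rintro S ⟨x, hx1, ⟨k, hk⟩, hS⟩ ⟨y, hy1, ⟨l, hl⟩, hS'⟩
  have h1 : Subgroup.zpowers x ∈ S := by
    rw [hS]
    refine ⟨1, ?_⟩
    ext z
    rw [mem_cj]
    simp
  rw [hS'] at h1
  obtain ⟨g, hg⟩ := h1
  have hc : Nat.card (Subgroup.zpowers x) = Nat.card (Subgroup.zpowers y) := by
    rw [← hg]
    unfold cj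
    exact (Nat.card_congr ((Subgroup.zpowers y).equivMapOfInjective _
      (MulAut.conj g).injective).toEquiv).symm
  rw [Nat.card_zpowers, Nat.card_zpowers] at hc
  have h2 : orderOf x ∣ p ^ k := orderOf_dvd_of_pow_eq_one hk
  have h3 : orderOf x ∣ q ^ l := by rw [hc]; exact orderOf_dvd_of_pow_eq_one hl
  have h4 : Nat.Coprime (p ^ k) (q ^ l) := Nat.Coprime.pow _ _ ((Nat.coprime_primes hp hq).mpr hpq)
  have h5 : orderOf x = 1 := Nat.eq_one_of_dvd_coprimes h4 h2 h3
  rw [orderOf_eq_one_iff] at h5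
  exact hx1 h5

theorem SOL : SOL_stmt := by
  intro G _ _ hG hloc
  classical
  set s := (Nat.card G).primeFactors with hs
  have h1 : mcl G (fun _ => True) ⊆ ⋃ p ∈ s, mcl G (PA p) := by
    rintro S ⟨M, hM, -, hS⟩
    obtain ⟨p, hp, hpa⟩ := SOL_pa hG M hM
    rw [Set.mem_iUnion₂]
    exact ⟨p, hp, M, hM, hpa, hS⟩
  have h2 : (⋃ p ∈ s, pcl p G) ⊆ {S | ∃ x : G, x ≠ 1 ∧ (∃ p k : ℕ, p.Prime ∧ x ^ (p ^ k) = 1) ∧
    S = Set.range (fun g : G => cj g (Subgroup.zpowers x))} := by
    intro S hS
    rw [Set.mem_iUnion₂] at hS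
    obtain ⟨p, hp, x, hx, ⟨k, hk⟩, hS⟩ := hS
    exact ⟨x, hx, ⟨p, k, Nat.prime_of_mem_primeFactors hp, hk⟩, hS⟩
  refine (Set.ncard_le_ncard h1 (Set.toFinite _)).trans (le_trans ?_
    (Set.ncard_le_ncard h2 (Set.toFinite _)))
  rw [SOL_eq s (fun p => pcl p G) (fun i hi j hj hij => SOL_dis i j
    (Nat.prime_of_mem_primeFactors hi) (Nat.prime_of_mem_primeFactors hj) hij)]
  refine (SOL_le s (fun p => mcl G (PA p))).trans (Finset.sum_le_sum ?_)
  intro p hp
  have : Fact p.Prime := ⟨Nat.prime_of_mem_primeFactors hp⟩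
  exact hloc p

end Pool.Agent.LC
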